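import Pool.Agent.L7h48.RT.Stm

/-! Project RT, part DET. -/

set_option autoImplicit false

namespace Pool.Agent.L7h66.RT

open Pool.Agent.L7h48.RT
open scoped Classical

lemma supp_card {n : ℕ} (H : SimpleGraph (Fin n)) (C : H.ConnectedComponent) :
    C.supp.ncard = (Finset.univ.filter fun v => H.connectedComponentMk v = C).card := by
  have h1 : C.supp = ↑(Finset.univ.filter fun v => H.connectedComponentMk v = C) := by
    ext v; simp
  rw [h1, Set.ncard_coe_finset]

/-- The vertices of the big components. -/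
noncomputable def U {n : ℕ} (l : ℝ) (H : SimpleGraph (Fin n)) : Finset (Fin n) :=
  Finset.univ.filter fun v => H.connectedComponentMk v ∈ big l H

lemma card_U {n : ℕ} (l : ℝ) (H : SimpleGraph (Fin n)) :
    (U l H).card = ∑ C ∈ big l H, C.supp.ncard := by
  have h0 : Set.MapsTo H.connectedComponentMk (U l H : Set (Fin n))
      (big l H : Set H.ConnectedComponent) :=
    fun v hv => Finset.mem_coe.2 (Finset.mem_filter.1 (Finset.mem_coe.1 hv)).2
  rw [Finset.card_eq_sum_card_fiberwise h0]
  apply Finset.sum_congr rfl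
  intro C hC
  rw [supp_card]
  congr 1
  ext v
  simp only [U, Finset.mem_filter, Finset.mem_univ, true_and]
  constructor
  · rintro ⟨_, h⟩; exact h
  · rintro h; exact ⟨h ▸ hC, h⟩

lemma Phi_le {n : ℕ} (l : ℝ) (H : SimpleGraph (Fin n)) (hl : 0 < l) :
    Phi l H ≤ ((U l H).card : ℝ) := by
  rw [card_U, Nat.cast_sum, Phi, big, Finset.sum_filter]
  apply Finset.sum_le_sum
  intro C _
  split_ifs with h
  · exact max_le (by linarith) (Nat.cast_nonneg _)
  · exact max_le (by linarith) le_rfl

lemma big_le {n : ℕ} (l : ℝ) (H : SimpleGraph (Fin n)) (hl : 0 < l) :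
    ((big l H).card : ℝ) ≤ n / l := by
  rw [le_div_iff₀ hl]
  have h1 : ((big l H).card : ℝ) * l ≤ ∑ C ∈ big l H, (C.supp.ncard : ℝ) := by
    rw [← nsmul_eq_mul, ← Finset.sum_const]
    exact Finset.sum_le_sum fun C hC => (Finset.mem_filter.1 hC).2.le
  have h2 : ((U l H).card : ℝ) ≤ n := by
    have h3 := Finset.card_le_univ (U l H)
    rw [Fintype.card_fin] at h3
    exact_mod_cast h3
  rw [card_U, Nat.cast_sum] at h2
  linarith

/-- `H` with the pairs of `P` added. -/
def Hp {n : ℕ} (H : SimpleGraph (Fin n)) (P : Finset (Pr n)) : SimpleGraph (Fin n) :=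
  H ⊔ SimpleGraph.fromEdgeSet {e | ∃ f ∈ P, f.1 = e}

lemma mem_Hp {n : ℕ} (H : SimpleGraph (Fin n)) (P : Finset (Pr n)) (e : Sym2 (Fin n)) :
    e ∈ (Hp H P).edgeSet ↔ e ∈ H.edgeSet ∨ ∃ f ∈ P, f.1 = e := by
  rw [Hp, SimpleGraph.edgeSet_sup, SimpleGraph.edgeSet_fromEdgeSet]
  constructor
  · rintro (h | ⟨h, -⟩)
    · exact Or.inl h
    · exact Or.inr h
  · rintro (h | ⟨f, hf, rfl⟩)
    · exact Or.inl h
    · exact Or.inr ⟨⟨f, hf, rfl⟩, f.2⟩

lemma Hp_mono {n : ℕ} (H : SimpleGraph (Fin n)) {P Q : Finset (Pr n)} (h : P ⊆ Q) :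
    Hp H P ≤ Hp H Q := by
  rw [← SimpleGraph.edgeSet_subset_edgeSet]
  intro e he
  rw [mem_Hp] at he ⊢
  rcases he with he | ⟨f, hf, he⟩
  · exact Or.inl he
  · exact Or.inr ⟨f, h hf, he⟩

lemma le_Hp {n : ℕ} (H : SimpleGraph (Fin n)) (P : Finset (Pr n)) : H ≤ Hp H P := le_sup_left

lemma comp_mono {n : ℕ} {G G' : SimpleGraph (Fin n)} (h : G ≤ G') {a b : Fin n}
    (hab : G.connectedComponentMk a = G.connectedComponentMk b) :
    G'.connectedComponentMk a = G'.connectedComponentMk b := by
  rw [SimpleGraph.ConnectedComponent.eq] at hab ⊢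
  exact hab.mono h

lemma kap_lt {n : ℕ} {G G' : SimpleGraph (Fin n)} (h : G ≤ G') (W : Finset (Fin n)) {a b : Fin n}
    (ha : a ∈ W) (hb : b ∈ W) (hne : G.connectedComponentMk a ≠ G.connectedComponentMk b)
    (hab : G'.Adj a b) :
    (W.image G'.connectedComponentMk).card < (W.image G.connectedComponentMk).card := by
  have h1 : W.image G'.connectedComponentMk =
      (W.image G.connectedComponentMk).image
        (fun C => C.map (SimpleGraph.Hom.ofLE h)) := by
    rw [Finset.image_image]
    apply Finset.image_congr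
    intro v _
    rfl
  rw [h1]
  refine lt_of_le_of_ne Finset.card_image_le ?_
  intro h2
  have h3 := Finset.card_image_iff.1 h2
  apply hne
  apply h3 (Finset.mem_coe.2 (Finset.mem_image_of_mem _ ha))
    (Finset.mem_coe.2 (Finset.mem_image_of_mem _ hb))
  show G'.connectedComponentMk a = G'.connectedComponentMk b
  exact SimpleGraph.ConnectedComponent.sound hab.reachable

theorem s_DET (httr : S_TTR) (hpar : S_PAR) : S_DET := by
  intro n c l r x z H hl hr hx hT
  set m := (big l H).card with hm
  set Adm : Finset (Pr n) → Prop := fun P =>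
    (∀ e ∈ P, x e = none ∧ ∃ q, z e = some q ∧ ∀ f : Pr n, f.1 ∈ H.edgeSet → x f ≠ some q) ∧
    (∀ e ∈ P, ∀ f ∈ P, z e = z f → e = f) ∧
    ((U l H).image (Hp H P).connectedComponentMk).card + P.card ≤ m with hAdm
  have hemp : Adm ∅ := by
    refine ⟨fun e he => absurd he (Finset.notMem_empty _),
      fun e he => absurd he (Finset.notMem_empty _), ?_⟩
    have h1 : Hp H ∅ = H := by
      ext a b
      rw [← SimpleGraph.mem_edgeSet, mem_Hp]
      simp
    rw [h1, Finset.card_empty, add_zero]
    apply Finset.card_le_card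
    intro C hC
    obtain ⟨v, hv, rfl⟩ := Finset.mem_image.1 hC
    exact (Finset.mem_filter.1 hv).2
  obtain ⟨P, hP, hmax⟩ := Finset.exists_max_image ((Finset.univ : Finset (Finset (Pr n))).filter Adm)
    Finset.card ⟨∅, Finset.mem_filter.2 ⟨Finset.mem_univ _, hemp⟩⟩
  obtain ⟨hP1, hP2, hP3⟩ := (Finset.mem_filter.1 hP).2
  set G := Hp H P with hG
  -- `G` is rainbow
  have mH : ∀ e : Pr n, e.1 ∈ H.edgeSet → merge x z e = x e := by
    intro e he
    have h1 := hx.1 e he
    unfold merge
    cases h2 : x e with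
    | none => exact absurd h2 h1
    | some j => rfl
  have mP : ∀ e : Pr n, e ∈ P → merge x z e = z e := by
    intro e he
    unfold merge
    rw [(hP1 e he).1]
    rfl
  have mem : ∀ e : Pr n, e.1 ∈ G.edgeSet → e.1 ∈ H.edgeSet ∨ e ∈ P := by
    intro e he
    rw [hG, mem_Hp] at he
    rcases he with he | ⟨f, hf, he⟩
    · exact Or.inl he
    · right
      rwa [← Subtype.ext he]
  have hrb : Rainbow (merge x z) G := by
    constructor
    · intro e he
      rcases mem e he with h | h
      · rw [mH e h]; exact hx.1 e h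
      · rw [mP e h]
        obtain ⟨q, hq, -⟩ := (hP1 e h).2
        rw [hq]; exact Option.some_ne_none q
    · intro e f he hf hef
      rcases mem e he with h | h <;> rcases mem f hf with h' | h'
      · rw [mH e h, mH f h'] at hef
        exact hx.2 e f h h' hef
      · rw [mH e h, mP f h'] at hef
        obtain ⟨q, hq, hq'⟩ := (hP1 f h').2
        rw [hq] at hef
        exact absurd hef (hq' e h)
      · rw [mP e h, mH f h'] at hef
        obtain ⟨q, hq, hq'⟩ := (hP1 e h).2
        rw [hq] at hef
        exact absurd hef.symm (hq' f h')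
      · rw [mP e h, mP f h'] at hef
        exact hP2 e h f h' hef
  obtain ⟨-, ht⟩ := httr n c (merge x z)
  have hU := Phi_le l H hl
  -- the numbers
  set a : G.ConnectedComponent → ℝ := fun K =>
    (((U l H).filter fun v => G.connectedComponentMk v = K).card : ℝ) with ha
  have hsumS : ∀ S : Finset G.ConnectedComponent, ∑ K ∈ S, a K =
      (((U l H).filter fun v => G.connectedComponentMk v ∈ S).card : ℝ) := by
    intro S
    have h0 : Set.MapsTo G.connectedComponentMk
        (((U l H).filter fun v => G.connectedComponentMk v ∈ S : Finset (Fin n)) : Set (Fin n))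
        (S : Set G.ConnectedComponent) :=
      fun v hv => Finset.mem_coe.2 (Finset.mem_filter.1 (Finset.mem_coe.1 hv)).2
    rw [Finset.card_eq_sum_card_fiberwise h0, Nat.cast_sum]
    apply Finset.sum_congr rfl
    intro K hK
    rw [ha]
    beta_reduce
    congr 2
    ext v
    simp only [Finset.mem_filter]
    constructor
    · rintro ⟨h1, h2⟩; exact ⟨⟨h1, h2 ▸ hK⟩, h2⟩
    · rintro ⟨⟨h1, _⟩, h2⟩; exact ⟨h1, h2⟩
  have hsum : ∑ K, a K = ((U l H).card : ℝ) := by
    rw [hsumS, Finset.filter_true_of_mem (fun v _ => Finset.mem_univ _)]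
  have haT : ∀ K, a K ≤ (T (merge x z) : ℝ) := by
    intro K
    induction K using SimpleGraph.ConnectedComponent.ind with
    | _ v =>
      have h1 := ht G v hrb
      rw [supp_card] at h1
      have h2 : ((U l H).filter fun w => G.connectedComponentMk w = G.connectedComponentMk v).card ≤
          (Finset.univ.filter fun w => G.connectedComponentMk w = G.connectedComponentMk v).card :=
        Finset.card_le_card (Finset.filter_subset_filter _ (Finset.subset_univ _))
      have h3 := h2.trans h1
      show (((U l H).filter fun w => G.connectedComponentMk w =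
        G.connectedComponentMk v).card : ℝ) ≤ (T (merge x z) : ℝ)
      exact Nat.cast_le.2 h3
  have hT0 : (0 : ℝ) ≤ (T (merge x z) : ℝ) := Nat.cast_nonneg _
  obtain ⟨S', hS1, hS2⟩ := hpar G.ConnectedComponent a r hr (fun K => Nat.cast_nonneg _)
    (by rw [hsum]; linarith) (fun K => by rw [hsum]; have := haT K; linarith)
  rw [hsumS] at hS1 hS2
  set S : Finset H.ConnectedComponent :=
    (big l H).filter fun C => C.map (SimpleGraph.Hom.ofLE (le_Hp H P)) ∈ S' with hS
  have hSm : ∀ v, H.connectedComponentMk v ∈ S ↔ v ∈ U l H ∧ G.connectedComponentMk v ∈ S' := by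
    intro v
    rw [hS, Finset.mem_filter, U, Finset.mem_filter]
    constructor
    · rintro ⟨h1, h2⟩; exact ⟨⟨Finset.mem_univ _, h1⟩, h2⟩
    · rintro ⟨⟨-, h1⟩, h2⟩; exact ⟨h1, h2⟩
  have hSn : ∀ v, H.connectedComponentMk v ∈ big l H \ S ↔
      v ∈ U l H ∧ G.connectedComponentMk v ∉ S' := by
    intro v
    rw [Finset.mem_sdiff, hSm, U, Finset.mem_filter]
    constructor
    · rintro ⟨h1, h2⟩
      exact ⟨⟨Finset.mem_univ _, h1⟩, fun h3 => h2 ⟨⟨Finset.mem_univ _, h1⟩, h3⟩⟩
    · rintro ⟨⟨-, h1⟩, h2⟩; exact ⟨h1, fun h3 => h2 h3.2⟩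
  refine ⟨S, Finset.univ.filter fun q => ∃ e ∈ P, z e = some q, Finset.filter_subset _ _, ?_, ?_,
    ?_, ?_⟩
  · have h1 : (Finset.univ.filter fun q => ∃ e ∈ P, z e = some q).card ≤ P.card := by
      have h2 : (Finset.univ.filter fun q : Fin c => ∃ e ∈ P, z e = some q).image some ⊆
          P.image z := by
        intro s hs
        obtain ⟨q, hq, rfl⟩ := Finset.mem_image.1 hs
        obtain ⟨-, e, he, he'⟩ := Finset.mem_filter.1 hq
        exact Finset.mem_image.2 ⟨e, he, he'⟩
      have h3 := (Finset.card_le_card h2).trans Finset.card_image_le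
      rwa [Finset.card_image_of_injective _ (Option.some_injective _)] at h3
    have h2 : ((Finset.univ.filter fun q => ∃ e ∈ P, z e = some q).card : ℝ) ≤ (m : ℝ) := by
      exact_mod_cast h1.trans (by omega)
    exact h2.trans (big_le l H hl)
  · refine hS1.trans (le_of_eq ?_)
    congr 2
    ext v
    rw [Finset.mem_filter, Finset.mem_filter, hSm]
    simp
  · refine hS2.trans (le_of_eq ?_)
    congr 2
    ext v
    rw [Finset.mem_filter, Finset.mem_filter, hSn, Finset.mem_sdiff]
    simp
  · rintro e hxe ⟨u, v, huv, hu, hv⟩ q hq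
    by_contra hcon
    rw [not_or] at hcon
    obtain ⟨hc1, hc2⟩ := hcon
    have hqP : ∀ f ∈ P, z f ≠ some q := fun f hf h =>
      hc1 (Finset.mem_filter.2 ⟨Finset.mem_univ _, f, hf, h⟩)
    have heP : e ∉ P := fun h => hqP e h hq
    rw [hSm] at hu
    rw [hSn] at hv
    have hadm : Adm (insert e P) := by
      refine ⟨?_, ?_, ?_⟩
      · intro f hf
        rcases Finset.mem_insert.1 hf with h | hf'
        · rw [h]
          exact ⟨hxe, q, hq, fun g hg h => hc2 ⟨g, hg, h⟩⟩
        · exact hP1 f hf'
      · intro f hf g hg hfg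
        rcases Finset.mem_insert.1 hf with h | hf' <;> rcases Finset.mem_insert.1 hg with h' | hg'
        · rw [h, h']
        · rw [h, hq] at hfg; exact absurd hfg.symm (hqP g hg')
        · rw [h', hq] at hfg; exact absurd hfg (hqP f hf')
        · exact hP2 f hf' g hg' hfg
      · have h1 := kap_lt (Hp_mono H (Finset.subset_insert e P)) (U l H) hu.1 hv.1
          (fun h => hv.2 (by
            have h2 : G.connectedComponentMk u = G.connectedComponentMk v := h
            rw [← h2]; exact hu.2)) (by
            rw [← SimpleGraph.mem_edgeSet, mem_Hp]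
            exact Or.inr ⟨e, Finset.mem_insert_self _ _, huv⟩)
        rw [Finset.card_insert_of_notMem heP]
        have h2 : ((U l H).image (Hp H (insert e P)).connectedComponentMk).card <
          ((U l H).image G.connectedComponentMk).card := h1
        omega
    have h1 := hmax (insert e P) (Finset.mem_filter.2 ⟨Finset.mem_univ _, hadm⟩)
    rw [Finset.card_insert_of_notMem heP] at h1
    omega

end Pool.Agent.L7h66.RT
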